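import Mathlib

set_option autoImplicit false

/-! # Poisson weights as functions of the parameter -/

open Finset

namespace Pool.Agent.U451.PZ

/-- the Poisson weights -/
noncomputable def pois (x : ℝ) (j : ℕ) : ℝ := Real.exp (-x) * x ^ j / j.factorial

/-- the preceding Poisson weight -/
noncomputable def prev (x : ℝ) : ℕ → ℝ
  | 0 => 0
  | j + 1 => pois x j

theorem pois_nonneg {x : ℝ} (hx : 0 ≤ x) (j : ℕ) : 0 ≤ pois x j := by
  unfold pois; positivity

theorem pois_le_one {x : ℝ} (hx : 0 ≤ x) (j : ℕ) : pois x j ≤ 1 := by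
  have h := Real.pow_div_factorial_le_exp x hx j
  unfold pois
  rw [Real.exp_neg, mul_div_assoc]
  calc (Real.exp x)⁻¹ * (x ^ j / j.factorial) ≤ (Real.exp x)⁻¹ * Real.exp x := by gcongr
    _ = 1 := inv_mul_cancel₀ (Real.exp_pos x).ne'

theorem prev_nonneg {x : ℝ} (hx : 0 ≤ x) (j : ℕ) : 0 ≤ prev x j := by
  cases j with
  | zero => exact le_rfl
  | succ j => exact pois_nonneg hx j

theorem prev_le_one {x : ℝ} (hx : 0 ≤ x) (j : ℕ) : prev x j ≤ 1 := by
  cases j with
  | zero => exact zero_le_one
  | succ j => exact pois_le_one hx j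

theorem pois_zero (j : ℕ) : pois 0 j = if j = 0 then 1 else 0 := by
  unfold pois
  cases j with
  | zero => simp
  | succ j => simp

theorem pois_deriv (x : ℝ) (j : ℕ) : HasDerivAt (fun x => pois x j) (prev x j - pois x j) x := by
  cases j with
  | zero =>
    have h : HasDerivAt (fun x : ℝ => Real.exp (-x)) (-Real.exp (-x)) x := by
      simpa using (hasDerivAt_neg x).exp
    have h2 : (fun x : ℝ => pois x 0) = fun x => Real.exp (-x) := by
      funext x; simp [pois]
    rw [h2]
    convert h using 1
    simp [prev, pois]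
  | succ j =>
    have h : HasDerivAt (fun x : ℝ => Real.exp (-x)) (-Real.exp (-x)) x := by
      simpa using (hasDerivAt_neg x).exp
    have h1 : HasDerivAt (fun x => pois x (j + 1))
        ((-Real.exp (-x) * x ^ (j + 1) + Real.exp (-x) * (((j + 1 : ℕ) : ℝ) * x ^ (j + 1 - 1))) /
          ((j + 1).factorial : ℝ)) x :=
      (h.mul (hasDerivAt_pow (j + 1) x)).div_const ((j + 1).factorial : ℝ)
    refine h1.congr_deriv ?_
    show _ = pois x j - pois x (j + 1)
    unfold pois
    rw [Nat.factorial_succ, Nat.add_sub_cancel]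
    push_cast
    have h2 : ((j : ℝ) + 1) ≠ 0 := by positivity
    have h3 : (j.factorial : ℝ) ≠ 0 := by positivity
    field_simp
    ring

/-- the derivative of `prev` -/
noncomputable def dprev (x : ℝ) : ℕ → ℝ
  | 0 => 0
  | j + 1 => prev x j - pois x j

theorem prev_deriv (x : ℝ) (j : ℕ) : HasDerivAt (fun x => prev x j) (dprev x j) x := by
  cases j with
  | zero => exact hasDerivAt_const x 0
  | succ j => exact pois_deriv x j

theorem slope_bound {x y : ℝ} (hx : 0 ≤ x) (hxy : x ≤ y) (j : ℕ) :
    |(prev y j - pois y j) - (prev x j - pois x j)| ≤ 2 * (y - x) := by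
  have hd : ∀ z : ℝ, HasDerivAt (fun z => prev z j - pois z j) (dprev z j - (prev z j - pois z j)) z :=
    fun z => (prev_deriv z j).sub (pois_deriv z j)
  have hb : ∀ z ∈ Set.Icc x y, ‖dprev z j - (prev z j - pois z j)‖ ≤ 2 := by
    intro z hz
    have hz0 : 0 ≤ z := hx.trans hz.1
    rw [Real.norm_eq_abs, abs_le]
    have a1 := pois_nonneg hz0 j
    have a2 := pois_le_one hz0 j
    cases j with
    | zero => 
      simp only [prev, dprev]
      constructor <;> linarith
    | succ j =>
      have b1 := pois_nonneg hz0 j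
      have b2 := pois_le_one hz0 j
      have c1 := prev_nonneg hz0 j
      have c2 := prev_le_one hz0 j
      have e1 : prev z (j + 1) = pois z j := rfl
      have e2 : dprev z (j + 1) = prev z j - pois z j := rfl
      rw [e1, e2]
      constructor <;> linarith
  have h := (convex_Icc x y).norm_image_sub_le_of_norm_hasDerivWithin_le
    (fun z _ => (hd z).hasDerivWithinAt) hb (Set.left_mem_Icc.2 hxy) (Set.right_mem_Icc.2 hxy)
  rw [Real.norm_eq_abs, Real.norm_eq_abs, abs_of_nonneg (by linarith : 0 ≤ y - x)] at h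
  exact h

/-- one step -/
theorem pois_step {x p : ℝ} (hx : 0 ≤ x) (hp : 0 ≤ p) (j : ℕ) :
    |pois (x + p) j - ((1 - p) * pois x j + p * prev x j)| ≤ 2 * p ^ 2 := by
  set d : ℝ := prev x j - pois x j with hd
  have hder : ∀ z : ℝ, HasDerivAt (fun z => pois z j - z * d) ((prev z j - pois z j) - d) z := by
    intro z
    refine (pois_deriv z j).sub ?_
    simpa using (hasDerivAt_id z).mul_const d
  have hb : ∀ z ∈ Set.Icc x (x + p), ‖(prev z j - pois z j) - d‖ ≤ 2 * p := by
    intro z hz
    rw [Real.norm_eq_abs, hd]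
    refine (slope_bound hx hz.1 j).trans ?_
    linarith [hz.2]
  have h := (convex_Icc x (x + p)).norm_image_sub_le_of_norm_hasDerivWithin_le
    (fun z _ => (hder z).hasDerivWithinAt) hb (Set.left_mem_Icc.2 (by linarith))
    (Set.right_mem_Icc.2 (by linarith))
  rw [Real.norm_eq_abs, Real.norm_eq_abs, add_sub_cancel_left, abs_of_nonneg hp] at h
  have e : pois (x + p) j - ((1 - p) * pois x j + p * prev x j) =
      pois (x + p) j - (x + p) * d - (pois x j - x * d) := by rw [hd]; ring
  rw [e]
  refine h.trans (le_of_eq ?_)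
  ring

end Pool.Agent.U451.PZ
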