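import Mathlib
import Pool.Agent.U451.PZ.Pois

set_option autoImplicit false
set_option linter.unusedSectionVars false

/-! # Poisson approximation for isolated members of a random set, uniform in all colourings -/

open MeasureTheory ProbabilityTheory Finset

namespace Pool.Agent.U451.PZ

variable {Ω : Type*}

/-- `n` is chosen and the next `w n` integers are not -/
def BB (E : ℕ → Set Ω) (w : ℕ → ℕ) (n : ℕ) : Set Ω := E n ∩ ⋂ m ∈ Ioc n (n + w n), (E m)ᶜ

open Classical in
/-- the number of the `k ∈ (n, N]` of colour `i` for which `B k` happens -/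
noncomputable def cnt {r : ℕ} (B : ℕ → Set Ω) (c : ℕ → Fin r) (n N : ℕ) (ω : Ω) (i : Fin r) : ℕ :=
  ((Ioc n N).filter (fun k => c k = i ∧ ω ∈ B k)).card

/-- the event that the counts are `v` -/
def ev {r : ℕ} (B : ℕ → Set Ω) (c : ℕ → Fin r) (n N : ℕ) (v : Fin r → ℕ) : Set Ω :=
  {ω | ∀ i, cnt B c n N ω i = v i}

theorem ev_meas {m : MeasurableSpace Ω} {r : ℕ} (B : ℕ → Set Ω) (c : ℕ → Fin r) (n N : ℕ) (v : Fin r → ℕ)
    (h : ∀ k ∈ Ioc n N, MeasurableSet[m] (B k)) : MeasurableSet[m] (ev B c n N v) := by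
  classical
  have e : ev B c n N v = ⋂ i, (fun ω => cnt B c n N ω i) ⁻¹' {v i} := by
    ext ω
    simp [ev]
  rw [e]
  refine MeasurableSet.iInter fun i => ?_
  have hf : Measurable (fun ω => cnt B c n N ω i) := by
    have e2 : (fun ω => cnt B c n N ω i) =
        fun ω => ∑ k ∈ Ioc n N, if (c k = i ∧ ω ∈ B k) then 1 else 0 := by
      funext ω
      unfold cnt
      rw [Finset.card_filter]
    rw [e2]
    refine Finset.measurable_sum _ fun k hk => ?_
    refine Measurable.ite ?_ measurable_const measurable_const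
    by_cases hc : c k = i
    · have : {ω | c k = i ∧ ω ∈ B k} = B k := by ext ω; simp [hc]
      rw [this]
      exact h k hk
    · have : {ω | c k = i ∧ ω ∈ B k} = ∅ := by ext ω; simp [hc]
      rw [this]
      exact MeasurableSet.empty
  exact hf (measurableSet_singleton _)

/-- the sigma-algebra of the events with indices in `S` -/
@[reducible] def sg (E : ℕ → Set Ω) (S : Set ℕ) : MeasurableSpace Ω := ⨆ i ∈ S, MeasurableSpace.generateFrom {E i}

theorem sg_E (E : ℕ → Set Ω) (S : Set ℕ) (i : ℕ) (hi : i ∈ S) : MeasurableSet[sg E S] (E i) := by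
  have h : MeasurableSpace.generateFrom {E i} ≤ sg E S := le_iSup₂ (f := fun i (_ : i ∈ S) =>
    MeasurableSpace.generateFrom {E i}) i hi
  exact h _ (MeasurableSpace.measurableSet_generateFrom rfl)

theorem sg_BB (E : ℕ → Set Ω) (w : ℕ → ℕ) (S : Set ℕ) (n : ℕ) (h : ∀ i, n ≤ i → i ≤ n + w n → i ∈ S) :
    MeasurableSet[sg E S] (BB E w n) := by
  unfold BB
  refine MeasurableSet.inter (sg_E E S n (h n le_rfl (Nat.le_add_right _ _))) ?_
  refine Finset.measurableSet_biInter _ fun m hm => ?_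
  rw [Finset.mem_Ioc] at hm
  exact (sg_E E S m (h m hm.1.le hm.2)).compl

section
variable [mΩ : MeasurableSpace Ω] {μ : Measure Ω} [IsProbabilityMeasure μ]

theorem BB_meas {E : ℕ → Set Ω} (hm : ∀ n, MeasurableSet (E n)) (w : ℕ → ℕ) (n : ℕ) :
    MeasurableSet (BB E w n) :=
  (hm n).inter (Finset.measurableSet_biInter _ fun m _ => (hm m).compl)

theorem indep_inter {E : ℕ → Set Ω} (hm : ∀ n, MeasurableSet (E n)) (hE : iIndepSet E μ) (S T : Set ℕ)
    (hST : Disjoint S T) (X Y : Set Ω) (hX : MeasurableSet[sg E S] X) (hY : MeasurableSet[sg E T] Y) :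
    μ.real (X ∩ Y) = μ.real X * μ.real Y := by
  have h : Indep (sg E S) (sg E T) μ := by
    refine indep_iSup_of_disjoint (fun i => ?_) hE hST
    refine MeasurableSpace.generateFrom_le ?_
    rintro _ rfl
    exact hm i
  have h2 := (Indep_iff _ _ _).1 h X Y hX hY
  rw [measureReal_def, measureReal_def, measureReal_def, h2, ENNReal.toReal_mul]

/-- on `BB k` nothing happens directly after `k` -/
theorem cnt_shift {r : ℕ} (E : ℕ → Set Ω) (w : ℕ → ℕ) (c : ℕ → Fin r) (k N : ℕ) (ω : Ω)
    (hω : ω ∈ BB E w k) (i : Fin r) : cnt (BB E w) c k N ω i = cnt (BB E w) c (k + w k) N ω i := by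
  classical
  unfold cnt
  congr 1
  ext m
  simp only [Finset.mem_filter, Finset.mem_Ioc]
  constructor
  · rintro ⟨⟨h1, h2⟩, h3, h4⟩
    refine ⟨⟨?_, h2⟩, h3, h4⟩
    by_contra h5
    have h6 : ω ∈ (E m)ᶜ := by
      have := hω.2
      simp only [Set.mem_iInter] at this
      exact this m (Finset.mem_Ioc.2 ⟨h1, by omega⟩)
    exact h6 h4.1
  · rintro ⟨⟨h1, h2⟩, h3, h4⟩
    exact ⟨⟨by omega, h2⟩, h3, h4⟩

theorem inter_ev {r : ℕ} {E : ℕ → Set Ω} (hm : ∀ n, MeasurableSet (E n)) (hE : iIndepSet E μ) (w : ℕ → ℕ)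
    (c : ℕ → Fin r) (k N : ℕ) (v : Fin r → ℕ) :
    μ.real (BB E w k ∩ ev (BB E w) c k N v) = μ.real (BB E w k) * μ.real (ev (BB E w) c (k + w k) N v) := by
  have e : BB E w k ∩ ev (BB E w) c k N v = BB E w k ∩ ev (BB E w) c (k + w k) N v := by
    ext ω
    constructor
    · rintro ⟨h1, h2⟩
      refine ⟨h1, fun i => ?_⟩
      rw [← cnt_shift E w c k N ω h1 i]
      exact h2 i
    · rintro ⟨h1, h2⟩
      refine ⟨h1, fun i => ?_⟩
      rw [cnt_shift E w c k N ω h1 i]
      exact h2 i
  rw [e]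
  refine indep_inter hm hE (Set.Iic (k + w k)) (Set.Ioi (k + w k)) ?_ _ _ ?_ ?_
  · rw [Set.disjoint_left]
    intro a h1 h2
    simp only [Set.mem_Iic, Set.mem_Ioi] at h1 h2
    omega
  · exact sg_BB E w _ k fun i _ h2 => h2
  · refine ev_meas _ c _ _ v fun m hm' => sg_BB E w _ m fun i h1 _ => ?_
    rw [Finset.mem_Ioc] at hm'
    show k + w k < i
    omega

theorem ev_close {r : ℕ} {E : ℕ → Set Ω} (w : ℕ → ℕ) (c : ℕ → Fin r) (k N : ℕ) (v : Fin r → ℕ) :
    |μ.real (ev (BB E w) c (k + w k) N v) - μ.real (ev (BB E w) c k N v)| ≤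
      ∑ m ∈ Ioc k (k + w k), μ.real (BB E w m) := by
  classical
  have key : ∀ ω, ω ∉ ⋃ m ∈ Ioc k (k + w k), BB E w m → ∀ i,
      cnt (BB E w) c (k + w k) N ω i = cnt (BB E w) c k N ω i := by
    intro ω hω i
    unfold cnt
    congr 1
    ext m
    simp only [Finset.mem_filter, Finset.mem_Ioc]
    constructor
    · rintro ⟨⟨h1, h2⟩, h3, h4⟩
      exact ⟨⟨by omega, h2⟩, h3, h4⟩
    · rintro ⟨⟨h1, h2⟩, h3, h4⟩
      refine ⟨⟨?_, h2⟩, h3, h4⟩
      by_contra h5
      apply hω
      simp only [Set.mem_iUnion]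
      exact ⟨m, Finset.mem_Ioc.2 ⟨h1, by omega⟩, h4⟩
  have hU : μ.real (⋃ m ∈ Ioc k (k + w k), BB E w m) ≤ ∑ m ∈ Ioc k (k + w k), μ.real (BB E w m) :=
    measureReal_biUnion_finset_le _ _
  have h1 : μ.real (ev (BB E w) c (k + w k) N v) ≤ μ.real (ev (BB E w) c k N v) +
      μ.real (⋃ m ∈ Ioc k (k + w k), BB E w m) := by
    refine (measureReal_mono ?_ (measure_ne_top _ _)).trans (measureReal_union_le _ _)
    intro ω hω
    by_cases h : ω ∈ ⋃ m ∈ Ioc k (k + w k), BB E w m
    · exact Or.inr h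
    · left
      intro i
      rw [← key ω h i]
      exact hω i
  have h2 : μ.real (ev (BB E w) c k N v) ≤ μ.real (ev (BB E w) c (k + w k) N v) +
      μ.real (⋃ m ∈ Ioc k (k + w k), BB E w m) := by
    refine (measureReal_mono ?_ (measure_ne_top _ _)).trans (measureReal_union_le _ _)
    intro ω hω
    by_cases h : ω ∈ ⋃ m ∈ Ioc k (k + w k), BB E w m
    · exact Or.inr h
    · left
      intro i
      rw [key ω h i]
      exact hω i
  rw [abs_le]
  constructor <;> linarith

/-- adding one element -/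
theorem cnt_succ {r : ℕ} (B : ℕ → Set Ω) (c : ℕ → Fin r) (n N : ℕ) (hn : n < N) (ω : Ω) (i : Fin r) :
    (ω ∈ B (n + 1) ∧ i = c (n + 1) → cnt B c n N ω i = cnt B c (n + 1) N ω i + 1) ∧
    (¬ (ω ∈ B (n + 1) ∧ i = c (n + 1)) → cnt B c n N ω i = cnt B c (n + 1) N ω i) := by
  classical
  have e : Ioc n N = insert (n + 1) (Ioc (n + 1) N) := by
    ext m
    simp only [Finset.mem_insert, Finset.mem_Ioc]
    omega
  have hno : n + 1 ∉ Ioc (n + 1) N := by simp
  unfold cnt
  rw [e, Finset.filter_insert]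
  constructor
  · rintro ⟨h1, h2⟩
    rw [if_pos ⟨h2.symm, h1⟩, Finset.card_insert_of_notMem]
    intro h
    exact hno (Finset.mem_filter.1 h).1
  · intro h
    rw [if_neg]
    rintro ⟨h1, h2⟩
    exact h ⟨h2, h1.symm⟩

/-- the recursion -/
theorem rec_step {r : ℕ} {E : ℕ → Set Ω} (hm : ∀ n, MeasurableSet (E n)) (hE : iIndepSet E μ) (w : ℕ → ℕ)
    (c : ℕ → Fin r) (n N : ℕ) (hn : n < N) (v : Fin r → ℕ) :
    μ.real (ev (BB E w) c n N v) = μ.real (ev (BB E w) c (n + 1) N v) -
      μ.real (BB E w (n + 1)) * μ.real (ev (BB E w) c (n + 1 + w (n + 1)) N v) +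
      (if v (c (n + 1)) = 0 then 0 else μ.real (BB E w (n + 1)) *
        μ.real (ev (BB E w) c (n + 1 + w (n + 1)) N
          (Function.update v (c (n + 1)) (v (c (n + 1)) - 1)))) := by
  classical
  set k := n + 1 with hk
  have hBm := BB_meas hm w
  have hem : ∀ u, MeasurableSet (ev (BB E w) c k N u) := fun u => ev_meas _ c _ _ u fun m _ => hBm m
  have hen : MeasurableSet (ev (BB E w) c n N v) := ev_meas _ c _ _ v fun m _ => hBm m
  rw [← inter_ev hm hE w c k N v]
  -- split
  have h1 : μ.real (ev (BB E w) c n N v) = μ.real (BB E w k ∩ ev (BB E w) c n N v) +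
      μ.real (ev (BB E w) c n N v \ BB E w k) := by
    have := measureReal_inter_add_sdiff (μ := μ) (s := ev (BB E w) c n N v) (hBm k)
    rw [Set.inter_comm] at this
    exact this.symm
  have h2 : μ.real (ev (BB E w) c k N v) = μ.real (BB E w k ∩ ev (BB E w) c k N v) +
      μ.real (ev (BB E w) c k N v \ BB E w k) := by
    have := measureReal_inter_add_sdiff (μ := μ) (s := ev (BB E w) c k N v) (hBm k)
    rw [Set.inter_comm] at this
    exact this.symm
  have h3 : ev (BB E w) c n N v \ BB E w k = ev (BB E w) c k N v \ BB E w k := by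
    ext ω
    constructor
    · rintro ⟨g1, g2⟩
      refine ⟨fun i => ?_, g2⟩
      rw [← (cnt_succ (BB E w) c n N hn ω i).2 (fun h => g2 h.1)]
      exact g1 i
    · rintro ⟨g1, g2⟩
      refine ⟨fun i => ?_, g2⟩
      rw [(cnt_succ (BB E w) c n N hn ω i).2 (fun h => g2 h.1)]
      exact g1 i
  have h4 : μ.real (BB E w k ∩ ev (BB E w) c n N v) = if v (c k) = 0 then 0 else μ.real (BB E w k) *
        μ.real (ev (BB E w) c (k + w k) N (Function.update v (c k) (v (c k) - 1))) := by
    split_ifs with hv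
    · have : BB E w k ∩ ev (BB E w) c n N v = ∅ := by
        ext ω
        simp only [Set.mem_inter_iff, Set.mem_empty_iff_false, iff_false, not_and]
        intro g1 g2
        have g3 := (cnt_succ (BB E w) c n N hn ω (c k)).1 ⟨g1, rfl⟩
        rw [g2 (c k), hv] at g3
        omega
      rw [this, measureReal_empty]
    · rw [← inter_ev hm hE w c k N]
      congr 1
      ext ω
      simp only [Set.mem_inter_iff, and_congr_right_iff]
      intro g1
      constructor
      · intro g2 i
        by_cases hi : i = c k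
        · have g3 := (cnt_succ (BB E w) c n N hn ω i).1 ⟨g1, hi⟩
          rw [g2 i, ← hk] at g3
          subst hi
          rw [Function.update_self, g3, Nat.add_sub_cancel]
        · rw [Function.update_of_ne hi, ← g2 i]
          exact ((cnt_succ (BB E w) c n N hn ω i).2 (fun h => hi h.2)).symm
      · intro g2 i
        by_cases hi : i = c k
        · have g3 := (cnt_succ (BB E w) c n N hn ω i).1 ⟨g1, hi⟩
          rw [g3, g2 i]
          subst hi
          rw [Function.update_self]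
          omega
        · rw [(cnt_succ (BB E w) c n N hn ω i).2 (fun h => hi h.2), g2 i, Function.update_of_ne hi]
  rw [h1, h4, h3]
  linarith

end

end Pool.Agent.U451.PZ
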