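import Mathlib
import Pool.Agent.U451.PZ.Rec

set_option autoImplicit false
set_option linter.unusedSectionVars false

/-! # Poisson approximation, uniform in all colourings -/

open MeasureTheory ProbabilityTheory Finset

namespace Pool.Agent.U451.PZ

open Classical in
/-- the parameter of the colour `i` -/
noncomputable def par {r : ℕ} (p : ℕ → ℝ) (c : ℕ → Fin r) (n N : ℕ) (i : Fin r) : ℝ :=
  ∑ m ∈ (Ioc n N).filter (fun m => c m = i), p m

/-- the Poisson side -/
noncomputable def PP {r : ℕ} (p : ℕ → ℝ) (c : ℕ → Fin r) (n N : ℕ) (v : Fin r → ℕ) : ℝ :=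
  ∏ i, pois (par p c n N i) (v i)

theorem par_nonneg {r : ℕ} {p : ℕ → ℝ} (hp : ∀ n, 0 ≤ p n) (c : ℕ → Fin r) (n N : ℕ) (i : Fin r) :
    0 ≤ par p c n N i := Finset.sum_nonneg fun m _ => hp m

theorem par_succ {r : ℕ} (p : ℕ → ℝ) (c : ℕ → Fin r) (n N : ℕ) (hn : n < N) (i : Fin r) :
    par p c n N i = par p c (n + 1) N i + (if i = c (n + 1) then p (n + 1) else 0) := by
  classical
  have e : Ioc n N = insert (n + 1) (Ioc (n + 1) N) := by
    ext m
    simp only [Finset.mem_insert, Finset.mem_Ioc]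
    omega
  have hno : n + 1 ∉ (Ioc (n + 1) N).filter (fun m => c m = i) := by simp
  unfold par
  rw [e, Finset.filter_insert]
  by_cases h : c (n + 1) = i
  · rw [if_pos h, Finset.sum_insert hno, if_pos h.symm]
    ring
  · rw [if_neg h, if_neg (fun h' => h h'.symm), add_zero]

theorem PP_step {r : ℕ} {p : ℕ → ℝ} (hp : ∀ n, 0 ≤ p n) (c : ℕ → Fin r) (n N : ℕ) (hn : n < N)
    (v : Fin r → ℕ) :
    |PP p c n N v - ((1 - p (n + 1)) * PP p c (n + 1) N v + p (n + 1) *
      (if v (c (n + 1)) = 0 then 0 else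
        PP p c (n + 1) N (Function.update v (c (n + 1)) (v (c (n + 1)) - 1))))| ≤ 2 * p (n + 1) ^ 2 := by
  classical
  obtain ⟨k, hk⟩ : ∃ k, k = n + 1 := ⟨_, rfl⟩
  obtain ⟨a, ha⟩ : ∃ a, a = c k := ⟨_, rfl⟩
  obtain ⟨x, hx⟩ : ∃ x : Fin r → ℝ, x = fun i => par p c k N i := ⟨_, rfl⟩
  have hx0 : ∀ i, 0 ≤ x i := fun i => by rw [hx]; exact par_nonneg hp c k N i
  obtain ⟨R, hR⟩ : ∃ R : ℝ, R = ∏ i ∈ univ.erase a, pois (x i) (v i) := ⟨_, rfl⟩
  have hR0 : 0 ≤ R := by rw [hR]; exact Finset.prod_nonneg fun i _ => pois_nonneg (hx0 i) _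
  have hR1 : R ≤ 1 := by
    rw [hR]; exact Finset.prod_le_one (fun i _ => pois_nonneg (hx0 i) _) fun i _ => pois_le_one (hx0 i) _
  have e1 : PP p c n N v = pois (x a + p k) (v a) * R := by
    unfold PP
    rw [← Finset.mul_prod_erase univ _ (Finset.mem_univ a), hR]
    congr 1
    · rw [par_succ p c n N hn, ← hk, ← ha, if_pos rfl, hx]
    · refine Finset.prod_congr rfl fun i hi => ?_
      rw [par_succ p c n N hn, ← hk, ← ha, if_neg (Finset.ne_of_mem_erase hi), add_zero, hx]
  have e2 : PP p c k N v = pois (x a) (v a) * R := by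
    unfold PP
    rw [← Finset.mul_prod_erase univ _ (Finset.mem_univ a), hR, hx]
  have e3 : (if v a = 0 then 0 else PP p c k N (Function.update v a (v a - 1))) = prev (x a) (v a) * R := by
    split_ifs with hv
    · rw [hv]; simp [prev]
    · obtain ⟨j, hj⟩ := Nat.exists_eq_succ_of_ne_zero hv
      unfold PP
      rw [← Finset.mul_prod_erase univ _ (Finset.mem_univ a), hR, hx]
      congr 1
      · rw [Function.update_self, hj]
        rfl
      · refine Finset.prod_congr rfl fun i hi => ?_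
        rw [Function.update_of_ne (Finset.ne_of_mem_erase hi)]
  rw [← hk, ← ha, e1, e2, e3]
  have h := pois_step (hx0 a) (hp k) (v a)
  have e4 : pois (x a + p k) (v a) * R - ((1 - p k) * (pois (x a) (v a) * R) + p k * (prev (x a) (v a) * R)) =
      (pois (x a + p k) (v a) - ((1 - p k) * pois (x a) (v a) + p k * prev (x a) (v a))) * R := by ring
  rw [e4, abs_mul, abs_of_nonneg hR0]
  calc |pois (x a + p k) (v a) - ((1 - p k) * pois (x a) (v a) + p k * prev (x a) (v a))| * R
      ≤ 2 * p k ^ 2 * 1 := by gcongr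
    _ = 2 * p k ^ 2 := mul_one _

variable {Ω : Type*} [mΩ : MeasurableSpace Ω] {μ : Measure Ω} [IsProbabilityMeasure μ]

theorem approx {r : ℕ} {E : ℕ → Set Ω} (hm : ∀ n, MeasurableSet (E n)) (hE : iIndepSet E μ) (w : ℕ → ℕ)
    (c : ℕ → Fin r) (N : ℕ) : ∀ d n : ℕ, n + d = N → ∀ v : Fin r → ℕ,
    |μ.real (ev (BB E w) c n N v) - PP (fun k => μ.real (BB E w k)) c n N v| ≤
      ∑ k ∈ Ioc n N, (2 * μ.real (BB E w k) * ∑ m ∈ Ioc k (k + w k), μ.real (BB E w m) +
        2 * μ.real (BB E w k) ^ 2) := by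
  classical
  have hp : ∀ n, 0 ≤ μ.real (BB E w n) := fun n => measureReal_nonneg
  intro d
  induction d with
  | zero =>
    intro n hn v
    have hn' : n = N := by omega
    subst hn'
    have e1 : PP (fun k => μ.real (BB E w k)) c n n v = if (∀ i, v i = 0) then 1 else 0 := by
      unfold PP par
      simp only [Finset.Ioc_self, Finset.filter_empty, Finset.sum_empty, pois_zero]
      split_ifs with h
      · exact Finset.prod_eq_one fun i _ => by rw [if_pos (h i)]
      · push Not at h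
        obtain ⟨i, hi⟩ := h
        exact Finset.prod_eq_zero (Finset.mem_univ i) (by rw [if_neg hi])
    have e2 : ev (BB E w) c n n v = if (∀ i, v i = 0) then Set.univ else ∅ := by
      ext ω
      have h0 : ∀ i, cnt (BB E w) c n n ω i = 0 := by intro i; simp [cnt]
      split_ifs with h
      · simp [ev, h0, h]
      · push Not at h
        obtain ⟨i, hi⟩ := h
        simp only [ev, Set.mem_setOf_eq, Set.mem_empty_iff_false, iff_false, not_forall]
        exact ⟨i, by rw [h0]; exact fun h => hi h.symm⟩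
    rw [e1, e2]
    split_ifs with h
    · simp
    · simp
  | succ d ih =>
    intro n hn v
    have hnN : n < N := by omega
    obtain ⟨k, hk⟩ : ∃ k, k = n + 1 := ⟨_, rfl⟩
    have hrec := rec_step hm hE w c n N hnN v
    have hPP := PP_step hp c n N hnN v
    rw [← hk] at hrec hPP
    have hsum : ∑ k ∈ Ioc n N, (2 * μ.real (BB E w k) * ∑ m ∈ Ioc k (k + w k), μ.real (BB E w m) +
        2 * μ.real (BB E w k) ^ 2) = (2 * μ.real (BB E w k) * ∑ m ∈ Ioc k (k + w k), μ.real (BB E w m) +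
        2 * μ.real (BB E w k) ^ 2) + ∑ k ∈ Ioc k N, (2 * μ.real (BB E w k) *
          ∑ m ∈ Ioc k (k + w k), μ.real (BB E w m) + 2 * μ.real (BB E w k) ^ 2) := by
      have e : Ioc n N = insert k (Ioc k N) := by
        ext m
        simp only [Finset.mem_insert, Finset.mem_Ioc]
        omega
      rw [e, Finset.sum_insert (by simp)]
    rw [hsum]
    obtain ⟨S, hS⟩ : ∃ S, S = ∑ k ∈ Ioc k N, (2 * μ.real (BB E w k) *
          ∑ m ∈ Ioc k (k + w k), μ.real (BB E w m) + 2 * μ.real (BB E w k) ^ 2) := ⟨_, rfl⟩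
    obtain ⟨s, hs⟩ : ∃ s, s = ∑ m ∈ Ioc k (k + w k), μ.real (BB E w m) := ⟨_, rfl⟩
    have hih : ∀ u, |μ.real (ev (BB E w) c k N u) - PP (fun k => μ.real (BB E w k)) c k N u| ≤ S := by
      intro u
      rw [hS]
      exact ih k (by omega) u
    have hcl : ∀ u, |μ.real (ev (BB E w) c (k + w k) N u) - μ.real (ev (BB E w) c k N u)| ≤ s := by
      intro u
      rw [hs]
      exact ev_close w c k N u
    rw [← hS, ← hs]
    obtain ⟨p, hpd⟩ : ∃ p, p = μ.real (BB E w k) := ⟨_, rfl⟩
    have hp0 : 0 ≤ p := by rw [hpd]; exact hp k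
    have hp1 : p ≤ 1 := by rw [hpd]; exact measureReal_le_one
    rw [← hpd] at hrec hPP ⊢
    rw [hrec]
    have hS0 : 0 ≤ S := (abs_nonneg _).trans (hih v)
    have g1 := abs_le.1 (hih v)
    have g2 := abs_le.1 (hcl v)
    have g3 := abs_le.1 hPP
    by_cases hv : v (c k) = 0
    · rw [if_pos hv] at g3 ⊢
      have m1 := mul_le_mul_of_nonneg_left g2.1 hp0
      have m2 := mul_le_mul_of_nonneg_left g2.2 hp0
      have m3 := mul_le_mul_of_nonneg_left g1.1 (by linarith : 0 ≤ 1 - p)
      have m4 := mul_le_mul_of_nonneg_left g1.2 (by linarith : 0 ≤ 1 - p)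
      have m5 := mul_nonneg hp0 hS0
      have m6 : 0 ≤ p * s := mul_nonneg hp0 ((abs_nonneg _).trans (hcl v))
      rw [abs_le]
      constructor <;> nlinarith [m1, m2, m3, m4, m5, m6, g3.1, g3.2]
    · rw [if_neg hv] at g3 ⊢
      have g4 := abs_le.1 (hih (Function.update v (c k) (v (c k) - 1)))
      have g5 := abs_le.1 (hcl (Function.update v (c k) (v (c k) - 1)))
      have m1 := mul_le_mul_of_nonneg_left g2.1 hp0
      have m2 := mul_le_mul_of_nonneg_left g2.2 hp0
      have m3 := mul_le_mul_of_nonneg_left g1.1 (by linarith : 0 ≤ 1 - p)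
      have m4 := mul_le_mul_of_nonneg_left g1.2 (by linarith : 0 ≤ 1 - p)
      have m5 := mul_le_mul_of_nonneg_left g4.1 hp0
      have m6 := mul_le_mul_of_nonneg_left g4.2 hp0
      have m7 := mul_le_mul_of_nonneg_left g5.1 hp0
      have m8 := mul_le_mul_of_nonneg_left g5.2 hp0
      rw [abs_le]
      constructor <;> nlinarith [m1, m2, m3, m4, m5, m6, m7, m8, g3.1, g3.2]

end Pool.Agent.U451.PZ
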