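import Mathlib
import Pool.Agent.U839.Fb.Sum
import Pool.Agent.U451.PZ.Apx

set_option autoImplicit false
set_option linter.unusedSectionVars false

/-! # Sums of the probabilities of long gaps over windows -/

open MeasureTheory ProbabilityTheory Filter Finset Topology

namespace Pool.Agent.U451.PZ

open Pool.Agent.U839.Thin (tlog)
open Pool.Agent.U839.Fb

/-- `log log` -/
noncomputable def LL (x : ℝ) : ℝ := Real.log (Real.log x)

theorem V_cauchy : CauchySeq (fun N : ℕ => ∑ n ∈ range N, uu n - LL ((N : ℝ) + 2)) := by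
  have hmono : Monotone (fun N : ℕ => ∑ n ∈ range N, uu n - LL ((N : ℝ) + 2)) := by
    apply monotone_nat_of_le_succ
    intro n
    rw [Finset.sum_range_succ]
    have h := (uu_tele n).2
    have e : (((n + 1 : ℕ) : ℝ) + 2) = (n : ℝ) + 3 := by push_cast; ring
    rw [e]
    unfold LL
    linarith
  have hbdd : BddAbove (Set.range (fun N : ℕ => ∑ n ∈ range N, uu n - LL ((N : ℝ) + 2))) := by
    refine ⟨uu 0 + |Real.log (Real.log 2)|, ?_⟩
    rintro _ ⟨N, rfl⟩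
    exact (le_abs_self _).trans (uu_sum N)
  exact (tendsto_atTop_ciSup hmono hbdd).cauchySeq

theorem G_cauchy (g : ℕ → ℝ) (κ D : ℝ) (h : Wt g κ 1 D) :
    CauchySeq (fun N : ℕ => ∑ n ∈ range N, g (n + 2) * uu n - LL ((N : ℝ) + 2)) := by
  have hb : ∀ n : ℕ, ‖∑ i ∈ range n, (g (i + 2) - 1)‖ ≤ D := by
    intro n
    have h1 := h.disc 1 n
    have h2 : ∑ m ∈ Ioc 1 (1 + n), g m = ∑ i ∈ range n, g (i + 2) := by
      rw [← Finset.sum_image (s := range n) (g := fun i => i + 2) (f := g)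
        (fun a _ b _ hab => by simpa using hab)]
      apply Finset.sum_congr _ (fun _ _ => rfl)
      ext m
      simp only [Finset.mem_Ioc, Finset.mem_image, Finset.mem_range]
      constructor
      · rintro ⟨h3, h4⟩
        exact ⟨m - 2, by omega, by omega⟩
      · rintro ⟨i, h3, h4⟩
        omega
    rw [h2, one_mul] at h1
    rw [Finset.sum_sub_distrib, Finset.sum_const, Finset.card_range, nsmul_eq_mul, mul_one]
    exact h1
  have h2 := uu_anti.cauchySeq_series_mul_of_tendsto_zero_of_bounded uu_lim hb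
  have h3 := h2.add V_cauchy
  convert h3 using 1
  funext N
  simp only [smul_eq_mul, Pi.add_apply]
  have : ∑ n ∈ range N, uu n * (g (n + 2) - 1) =
      ∑ n ∈ range N, g (n + 2) * uu n - ∑ n ∈ range N, uu n := by
    rw [← Finset.sum_sub_distrib]
    exact Finset.sum_congr rfl fun n _ => by ring
  rw [this]
  ring

theorem shift_LL : Tendsto (fun N : ℕ => LL ((N : ℝ) + 1) - LL N) atTop (𝓝 0) := by
  refine squeeze_zero' ?_ ?_ loglog_shift
  · filter_upwards [eventually_ge_atTop 3, tlog.eventually_ge_atTop 1] with N hN hL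
    have hN0 : (0 : ℝ) < N := by exact_mod_cast (by omega : 0 < N)
    have h1 : Real.log N ≤ Real.log ((N : ℝ) + 1) := Real.log_le_log hN0 (by linarith)
    have h2 : Real.log (Real.log N) ≤ Real.log (Real.log ((N : ℝ) + 1)) := Real.log_le_log (by linarith) h1
    unfold LL
    linarith
  · filter_upwards [eventually_ge_atTop 3, tlog.eventually_ge_atTop 1] with N hN hL
    have hN0 : (0 : ℝ) < N := by exact_mod_cast (by omega : 0 < N)
    have h1 : Real.log N ≤ Real.log ((N : ℝ) + 1) := Real.log_le_log hN0 (by linarith)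
    have h2 : Real.log ((N : ℝ) + 1) ≤ Real.log ((N : ℝ) + 2) := Real.log_le_log (by linarith) (by linarith)
    have h3 : Real.log (Real.log ((N : ℝ) + 1)) ≤ Real.log (Real.log ((N : ℝ) + 2)) :=
      Real.log_le_log (by linarith) h2
    unfold LL
    linarith

theorem LL_mono {M N : ℕ} (hM : 3 ≤ M) (hMN : M ≤ N) : LL M ≤ LL N := by
  have h0 : (0 : ℝ) < M := by exact_mod_cast (by omega : 0 < M)
  have h1 : (M : ℝ) ≤ N := by exact_mod_cast hMN
  have h2 : 0 < Real.log M := Real.log_pos (by exact_mod_cast (by omega : 1 < M))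
  exact Real.log_le_log h2 (Real.log_le_log h0 h1)

theorem shift_sum (F : ℕ → ℝ) (a b : ℕ) : ∑ n ∈ Ioc (a + 1) (b + 1), F n = ∑ i ∈ Ico a b, F (i + 2) := by
  rw [← Finset.sum_image (s := Ico a b) (g := fun i => i + 2) (f := F) (fun x _ y _ hxy => by simpa using hxy)]
  apply Finset.sum_congr _ (fun _ _ => rfl)
  ext m
  simp only [Finset.mem_Ioc, Finset.mem_image, Finset.mem_Ico]
  constructor
  · rintro ⟨h3, h4⟩
    exact ⟨m - 2, by omega, by omega⟩
  · rintro ⟨i, h3, h4⟩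
    omega

/-- sums of the probabilities over windows -/
theorem window (g : ℕ → ℝ) (κ D b : ℝ) (h : Wt g κ 1 D) (F : ℕ → ℝ)
    (hF : ∀ᶠ n : ℕ in atTop, F n = g n / Real.log n * ∏ m ∈ Ioc n (n + wb 1 b n),
      (1 - g m / Real.log m)) (ε : ℝ) (hε : 0 < ε) :
    ∃ M₀ : ℕ, ∀ M N : ℕ, M₀ ≤ M → M ≤ N →
      |∑ n ∈ Ioc M N, F n - Real.exp (-b - κ / 2) * (LL N - LL M)| ≤ ε * (1 + (LL N - LL M)) := by
  obtain ⟨Λ, hΛ⟩ : ∃ Λ, Λ = Real.exp (-b - κ / 2) := ⟨_, rfl⟩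
  have hΛ0 : 0 < Λ := by rw [hΛ]; exact Real.exp_pos _
  have hP := prodlim g κ 1 D b h
  rw [← hΛ] at hP ⊢
  have hκ := h.hκ
  obtain ⟨K, hK⟩ : ∃ K, K = 2 * (uu 0 + |Real.log (Real.log 2)|) + 3 := ⟨_, rfl⟩
  have hK0 : 0 < K := by
    have := uu_pos 0
    have := abs_nonneg (Real.log (Real.log 2))
    rw [hK]; linarith
  obtain ⟨δ, hδ⟩ : ∃ δ, δ = ε / (2 * K) := ⟨_, rfl⟩
  have hδ0 : 0 < δ := by rw [hδ]; positivity
  have h1 : ∀ᶠ n : ℕ in atTop, |F (n + 2) - Λ * (g (n + 2) * uu n)| ≤ δ * uu n := by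
    have h2 : ∀ᶠ n : ℕ in atTop, |(n : ℝ) * ∏ m ∈ Ioc n (n + wb 1 b n), (1 - g m / Real.log m) - Λ| <
        δ / κ := by
      have := Metric.tendsto_nhds.1 hP (δ / κ) (by positivity)
      simpa only [Real.dist_eq] using this
    have hsh : Tendsto (fun n : ℕ => n + 2) atTop atTop := tendsto_add_atTop_nat 2
    filter_upwards [hsh.eventually h2, hsh.eventually hF] with n g1 g2
    rw [g2]
    obtain ⟨PP, hPP⟩ : ∃ PP : ℝ, PP = ∏ m ∈ Ioc (n + 2) (n + 2 + wb 1 b (n + 2)),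
      (1 - g m / Real.log m) := ⟨_, rfl⟩
    rw [← hPP] at g1 ⊢
    have hn : (0 : ℝ) ≤ n := Nat.cast_nonneg n
    have hlog := log2_pos n
    push_cast at g1 ⊢
    have e : g (n + 2) / Real.log ((n : ℝ) + 2) * PP - Λ * (g (n + 2) * uu n) =
        (g (n + 2) * uu n) * (((n : ℝ) + 2) * PP - Λ) := by
      unfold uu
      field_simp
    rw [e, abs_mul, abs_of_nonneg (mul_nonneg (h.nonneg _) (uu_pos n).le)]
    calc g (n + 2) * uu n * |((n : ℝ) + 2) * PP - Λ| ≤ κ * uu n * (δ / κ) := by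
          apply mul_le_mul _ g1.le (abs_nonneg _) (mul_nonneg hκ.le (uu_pos n).le)
          exact mul_le_mul_of_nonneg_right (h.le _) (uu_pos n).le
      _ = δ * uu n := by field_simp
  obtain ⟨n₁, hn₁⟩ := eventually_atTop.1 h1
  -- the Cauchy sequences
  have hη : 0 < ε / (4 * Λ) := by positivity
  obtain ⟨n₂, hn₂⟩ := Metric.cauchySeq_iff.1 (G_cauchy g κ D h) (ε / (4 * Λ)) hη
  have h3 := Metric.tendsto_nhds.1 shift_LL (min (ε / (8 * Λ)) 1) (by positivity)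
  obtain ⟨n₃, hn₃⟩ := eventually_atTop.1 h3
  refine ⟨n₁ + n₂ + n₃ + 4, fun M N hM hMN => ?_⟩
  obtain ⟨a, rfl⟩ : ∃ a, M = a + 1 := ⟨M - 1, by omega⟩
  obtain ⟨c, rfl⟩ : ∃ c, N = c + 1 := ⟨N - 1, by omega⟩
  have hac : a ≤ c := by omega
  rw [shift_sum]
  have hA := hn₃ (a + 1) (by omega)
  have hC := hn₃ (c + 1) (by omega)
  rw [Real.dist_eq, sub_zero] at hA hC
  have hA1 := hA.trans_le (min_le_left _ _)
  have hC1 := hC.trans_le (min_le_left _ _)
  have hA2 := hA.trans_le (min_le_right _ _)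
  have hC2 := hC.trans_le (min_le_right _ _)
  have ea : (((a + 1 : ℕ) : ℝ) + 1) = (a : ℝ) + 2 := by push_cast; ring
  have ec : (((c + 1 : ℕ) : ℝ) + 1) = (c : ℝ) + 2 := by push_cast; ring
  rw [ea] at hA1 hA2
  rw [ec] at hC1 hC2
  have hG := hn₂ c (by omega) a (by omega)
  rw [Real.dist_eq] at hG
  have hL : LL ((a + 1 : ℕ) : ℝ) ≤ LL ((c + 1 : ℕ) : ℝ) := LL_mono (by omega) hMN
  obtain ⟨la, hla⟩ : ∃ la, la = LL ((a + 1 : ℕ) : ℝ) := ⟨_, rfl⟩
  obtain ⟨lc, hlc⟩ : ∃ lc, lc = LL ((c + 1 : ℕ) : ℝ) := ⟨_, rfl⟩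
  rw [← hla, ← hlc] at hL ⊢
  rw [← hla] at hA1 hA2
  rw [← hlc] at hC1 hC2
  obtain ⟨La, hLa⟩ : ∃ La, La = LL ((a : ℝ) + 2) := ⟨_, rfl⟩
  obtain ⟨Lc, hLc⟩ : ∃ Lc, Lc = LL ((c : ℝ) + 2) := ⟨_, rfl⟩
  rw [← hLa] at hA1 hA2 hG
  rw [← hLc] at hC1 hC2 hG
  have hUa := uu_sum a
  have hUc := uu_sum c
  have eLa : Real.log (Real.log ((a : ℝ) + 2)) = La := hLa.symm
  have eLc : Real.log (Real.log ((c : ℝ) + 2)) = Lc := hLc.symm
  rw [eLa] at hUa
  rw [eLc] at hUc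
  have s1 : ∑ n ∈ Ico a c, uu n = ∑ n ∈ range c, uu n - ∑ n ∈ range a, uu n := Finset.sum_Ico_eq_sub _ hac
  have s2 : ∑ n ∈ Ico a c, g (n + 2) * uu n =
      ∑ n ∈ range c, g (n + 2) * uu n - ∑ n ∈ range a, g (n + 2) * uu n := Finset.sum_Ico_eq_sub _ hac
  have t1 : |∑ i ∈ Ico a c, F (i + 2) - Λ * ∑ n ∈ Ico a c, g (n + 2) * uu n| ≤ δ * ∑ n ∈ Ico a c, uu n := by
    rw [Finset.mul_sum, ← Finset.sum_sub_distrib, Finset.mul_sum]
    refine (Finset.abs_sum_le_sum_abs _ _).trans (Finset.sum_le_sum fun i hi => ?_)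
    exact hn₁ i (by rw [Finset.mem_Ico] at hi; omega)
  have t2 : ∑ n ∈ Ico a c, uu n ≤ K + (lc - la) := by
    rw [s1, hK]
    have q1 := abs_le.1 hUa
    have q2 := abs_le.1 hUc
    have q3 := abs_lt.1 hA2
    have q4 := abs_lt.1 hC2
    linarith [q1.1, q2.2, q3.1, q4.2]
  have t3 : |∑ n ∈ Ico a c, g (n + 2) * uu n - (lc - la)| ≤ ε / (2 * Λ) := by
    rw [s2]
    have q1 := abs_lt.1 hG
    have q3 := abs_lt.1 hA1
    have q4 := abs_lt.1 hC1
    have e8 : ε / (2 * Λ) = ε / (4 * Λ) + 2 * (ε / (8 * Λ)) := by field_simp; ring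
    rw [e8, abs_le]
    constructor <;> linarith [q1.1, q1.2, q3.1, q3.2, q4.1, q4.2]
  have t4 : δ * ∑ n ∈ Ico a c, uu n ≤ ε / 2 * (1 + (lc - la)) := by
    calc δ * ∑ n ∈ Ico a c, uu n ≤ δ * (K + (lc - la)) := by gcongr
      _ ≤ δ * (K * (1 + (lc - la))) := by
          have : (lc - la) ≤ K * (lc - la) := by
            have hK1 : 1 ≤ K := by
              have := uu_pos 0
              have := abs_nonneg (Real.log (Real.log 2))
              rw [hK]; linarith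
            nlinarith
          have : K + (lc - la) ≤ K * (1 + (lc - la)) := by nlinarith
          gcongr
      _ = ε / 2 * (1 + (lc - la)) := by rw [hδ]; field_simp
  have t5 : |Λ * ∑ n ∈ Ico a c, g (n + 2) * uu n - Λ * (lc - la)| ≤ ε / 2 := by
    rw [← mul_sub, abs_mul, abs_of_pos hΛ0]
    calc Λ * |∑ n ∈ Ico a c, g (n + 2) * uu n - (lc - la)| ≤ Λ * (ε / (2 * Λ)) := by gcongr
      _ = ε / 2 := by field_simp
  have t6 := (abs_sub_abs_le_abs_sub (∑ i ∈ Ico a c, F (i + 2) - Λ * ∑ n ∈ Ico a c, g (n + 2) * uu n) 0)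
  have u1 := abs_le.1 (t1.trans t4)
  have u2 := abs_le.1 t5
  have u3 : 0 ≤ ε / 2 * (lc - la) := by
    have : 0 ≤ lc - la := by linarith
    positivity
  rw [abs_le]
  constructor <;> nlinarith [u1.1, u1.2, u2.1, u2.2, u3]

end Pool.Agent.U451.PZ
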