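import Mathlib
import Pool.Agent.U839.Fb.Prod
import Pool.Agent.U451.PZ.Apx

set_option autoImplicit false
set_option linter.unusedSectionVars false

/-! # The error of the Poisson approximation -/

open MeasureTheory ProbabilityTheory Filter Finset Topology

namespace Pool.Agent.U451.PZ

open Pool.Agent.U839.Thin (tlog)
open Pool.Agent.U839.Fb

theorem F_bound (g : ℕ → ℝ) (κ D b : ℝ) (h : Wt g κ 1 D) (F : ℕ → ℝ)
    (hF : ∀ᶠ n : ℕ in atTop, F n = g n / Real.log n * ∏ m ∈ Ioc n (n + wb 1 b n),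
      (1 - g m / Real.log m)) :
    ∃ C : ℝ, 0 < C ∧ ∀ᶠ n : ℕ in atTop, F n ≤ C / (n * Real.log n) := by
  have hκ := h.hκ
  obtain ⟨Λ, hΛ⟩ : ∃ Λ, Λ = Real.exp (-b - κ / 2) := ⟨_, rfl⟩
  have hΛ0 : 0 < Λ := by rw [hΛ]; exact Real.exp_pos _
  have hP := prodlim g κ 1 D b h
  rw [← hΛ] at hP
  refine ⟨κ * (Λ + 1), by positivity, ?_⟩
  have h2 := hP.eventually_lt_const (by linarith : Λ < Λ + 1)
  filter_upwards [h2, hF, eventually_ge_atTop 3, tlog.eventually_ge_atTop 1] with n h3 h4 h5 h6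
  have hn : (0 : ℝ) < n := by exact_mod_cast (by omega : 0 < n)
  rw [h4]
  have h7 : ∏ m ∈ Ioc n (n + wb 1 b n), (1 - g m / Real.log m) ≤ (Λ + 1) / n := by
    rw [le_div_iff₀ hn, mul_comm]
    exact h3.le
  have h8 : 0 ≤ g n / Real.log n := div_nonneg (h.nonneg n) (by linarith)
  have h9 : g n / Real.log n ≤ κ / Real.log n := by
    have := h.le n
    gcongr
  calc g n / Real.log n * ∏ m ∈ Ioc n (n + wb 1 b n), (1 - g m / Real.log m)
      ≤ g n / Real.log n * ((Λ + 1) / n) := by gcongr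
    _ ≤ κ / Real.log n * ((Λ + 1) / n) := by gcongr
    _ = κ * (Λ + 1) / (n * Real.log n) := by
        field_simp

theorem wb_bound (b : ℝ) : ∀ᶠ n : ℕ in atTop, (wb 1 b n : ℝ) ≤ (1 + |b|) * (Real.log n) ^ 2 := by
  filter_upwards [tlog.eventually_ge_atTop 1] with n hn
  unfold wb
  rw [div_one]
  by_cases h0 : 0 ≤ (Real.log n) ^ 2 + b * Real.log n
  · refine (Nat.floor_le h0).trans ?_
    have h1 : b * Real.log n ≤ |b| * (Real.log n) ^ 2 := by
      have h2 : b * Real.log n ≤ |b| * Real.log n := by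
        have := le_abs_self b
        gcongr
      have h3 : |b| * Real.log n ≤ |b| * (Real.log n) ^ 2 := by
        have : Real.log n ≤ (Real.log n) ^ 2 := by nlinarith
        have h4 := abs_nonneg b
        gcongr
      linarith
    linarith
  · rw [Nat.floor_of_nonpos (le_of_not_ge h0)]
    have := abs_nonneg b
    push_cast
    positivity

theorem errsum (g : ℕ → ℝ) (κ D b : ℝ) (h : Wt g κ 1 D) (F : ℕ → ℝ) (hF0 : ∀ n, 0 ≤ F n)
    (hF : ∀ᶠ n : ℕ in atTop, F n = g n / Real.log n * ∏ m ∈ Ioc n (n + wb 1 b n),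
      (1 - g m / Real.log m)) :
    ∃ (C : ℝ) (M₁ : ℕ), 0 < C ∧ ∀ M N : ℕ, M₁ ≤ M →
      ∑ k ∈ Ioc M N, (2 * F k * ∑ m ∈ Ioc k (k + wb 1 b k), F m + 2 * F k ^ 2) ≤ C / M := by
  obtain ⟨C₁, hC₁, hb1⟩ := F_bound g κ D b h F hF
  obtain ⟨C₂, hC₂⟩ : ∃ C₂, C₂ = 1 + |b| := ⟨_, rfl⟩
  have hC₂0 : 0 < C₂ := by have := abs_nonneg b; rw [hC₂]; linarith
  have hw := wb_bound b
  rw [← hC₂] at hw
  obtain ⟨k₁, hk₁⟩ := eventually_atTop.1 ((hb1.and hw).and
    ((eventually_ge_atTop 3).and (tlog.eventually_ge_atTop 1)))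
  have hC : 0 < 2 * C₁ ^ 2 * C₂ + 2 * C₁ ^ 2 := by positivity
  refine ⟨2 * C₁ ^ 2 * C₂ + 2 * C₁ ^ 2, k₁ + 1, hC, fun M N hM => ?_⟩
  have hterm : ∀ k ∈ Ioc M N, 2 * F k * ∑ m ∈ Ioc k (k + wb 1 b k), F m + 2 * F k ^ 2 ≤
      (2 * C₁ ^ 2 * C₂ + 2 * C₁ ^ 2) * ((k : ℝ) ^ 2)⁻¹ := by
    intro k hk
    rw [Finset.mem_Ioc] at hk
    obtain ⟨⟨g1, g2⟩, g3, g4⟩ := hk₁ k (by omega)
    have hk0 : (0 : ℝ) < k := by exact_mod_cast (by omega : 0 < k)
    have hL0 : 0 < Real.log k := by linarith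
    have hs : ∑ m ∈ Ioc k (k + wb 1 b k), F m ≤ C₁ * C₂ * Real.log k / k := by
      calc ∑ m ∈ Ioc k (k + wb 1 b k), F m ≤ ∑ m ∈ Ioc k (k + wb 1 b k), C₁ / (k * Real.log k) := by
            refine Finset.sum_le_sum fun m hm => ?_
            rw [Finset.mem_Ioc] at hm
            obtain ⟨⟨f1, -⟩, -, -⟩ := hk₁ m (by omega)
            refine f1.trans ?_
            have hkm : (k : ℝ) ≤ m := by exact_mod_cast hm.1.le
            have hlog : Real.log k ≤ Real.log m := Real.log_le_log hk0 hkm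
            gcongr
        _ = wb 1 b k * (C₁ / (k * Real.log k)) := by
            rw [Finset.sum_const, Nat.card_Ioc, Nat.add_sub_cancel_left, nsmul_eq_mul]
        _ ≤ (C₂ * (Real.log k) ^ 2) * (C₁ / (k * Real.log k)) := by gcongr
        _ = C₁ * C₂ * Real.log k / k := by field_simp
    have hs0 : 0 ≤ ∑ m ∈ Ioc k (k + wb 1 b k), F m := Finset.sum_nonneg fun m _ => hF0 m
    have hFk0 := hF0 k
    have e1 : 2 * F k * ∑ m ∈ Ioc k (k + wb 1 b k), F m ≤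
        2 * (C₁ / (k * Real.log k)) * (C₁ * C₂ * Real.log k / k) := by gcongr
    have e2 : 2 * (C₁ / (k * Real.log k)) * (C₁ * C₂ * Real.log k / k) =
        2 * C₁ ^ 2 * C₂ * ((k : ℝ) ^ 2)⁻¹ := by field_simp
    have e3 : F k ≤ C₁ / k := by
      refine g1.trans ?_
      have : (k : ℝ) ≤ k * Real.log k := by nlinarith
      gcongr
    have e4 : 2 * F k ^ 2 ≤ 2 * (C₁ / k) ^ 2 := by gcongr
    have e5 : 2 * (C₁ / k) ^ 2 = 2 * C₁ ^ 2 * ((k : ℝ) ^ 2)⁻¹ := by field_simp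
    rw [add_mul]
    linarith
  refine (Finset.sum_le_sum hterm).trans ?_
  rw [← Finset.mul_sum]
  rcases le_total M N with hMN | hMN
  · have h5 := sum_Ioc_inv_sq_le_sub (α := ℝ) (by omega : M ≠ 0) hMN
    have h6 : (0 : ℝ) ≤ (N : ℝ)⁻¹ := by positivity
    rw [div_eq_mul_inv]
    have h7 : ∑ i ∈ Ioc M N, ((i : ℝ) ^ 2)⁻¹ ≤ (M : ℝ)⁻¹ := by linarith
    gcongr
  · rw [Finset.Ioc_eq_empty_of_le hMN, Finset.sum_empty, mul_zero]
    positivity

end Pool.Agent.U451.PZ
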